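import Pool.Graph.R_seed8.H813R2.CS.T_BL
import Pool.Graph.R_seed8.H813R2.CS.T_CHAIN
import Pool.Graph.R_seed8.H813R2.CS.T_CPL
import Pool.Graph.R_seed8.H813R2.CS.T_D1
import Pool.Graph.R_seed8.H813R2.CS.T_D2A
import Pool.Graph.R_seed8.H813R2.CS.T_D2B
import Pool.Graph.R_seed8.H813R2.CS.T_D3
import Pool.Graph.R_seed8.H813R2.CS.T_DEN
import Pool.Graph.R_seed8.H813R2.CS.T_DIG
import Pool.Graph.R_seed8.H813R2.CS.T_E1
import Pool.Graph.R_seed8.H813R2.CS.T_E2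
import Pool.Graph.R_seed8.H813R2.CS.T_E3
import Pool.Graph.R_seed8.H813R2.CS.T_GEO
import Pool.Graph.R_seed8.H813R2.CS.T_INFO
import Pool.Graph.R_seed8.H813R2.CS.T_MA
import Pool.Graph.R_seed8.H813R2.CS.T_MUC
import Pool.Graph.R_seed8.H813R2.CS.T_MQ
import Pool.Graph.R_seed8.H813R2.CS.T_NODE
import Pool.Graph.R_seed8.H813R2.CS.T_S1
import Pool.Graph.R_seed8.H813R2.CS.T_S3
import Pool.Graph.R_seed8.H813R2.CS.T_STG
import Pool.Graph.R_pool_sql_team_seeded_3dad9d7b.NH39.CG.Front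

set_option autoImplicit false

open MeasureTheory

namespace Pool.Agent.H83.CG

open H813.CS Pool.Agent.NH39.CG

theorem entropyLib : EL :=
  ⟨t_nonneg, t_congr, t_mono, t_cond, t_chain, t_card,
    t_near t_chain t_mono t_card t_congr, t_fib, t_smul⟩

theorem s_MA : S_MA := by
  have E := entropyLib
  have hbl := t_BL (t_D3 (t_D2 (t_D2a t_D1) E) E) E
  have hgeo := t_GEO t_DIG
  have hinfo := t_INFO t_DIG E
  have hchain := t_CHAIN t_DIG E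
  have hs3 := t_S3 (t_STG hbl t_DIG hgeo t_NODE E) hinfo hchain hgeo t_DIG t_NEST t_NODE E
  have hs1 := t_S1 hbl hinfo hchain hgeo t_DIG t_NEST E
  exact t_MA (t_MQ hs1 hs3 t_DEN t_NODE t_XI t_DIG E) t_CPL

theorem s_CORE : S_CORE := core s_MA (t_MUC t_DIG t_XI)

theorem posGauge : ∃ A : ℝ, 0 < A ∧ ∀ B E : Set ℝ, volume E ≠ 0 →
    (∀ x ∈ E, ∃ r : ℝ, 0 < r ∧ ∀ c ∈ cantorSet, x + r * (c - 1 / 2) ∈ B) →
    ∃ ε : ℝ, 0 < ε ∧ ∀ a ρ : ℕ → ℝ, (∀ i, 0 < ρ i ∧ ρ i < 1) →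
      (B ⊆ ⋃ i, Set.Icc (a i) (a i + ρ i)) →
      ENNReal.ofReal ε ≤ ∑' i, ENNReal.ofReal (gau A (ρ i)) := pos_gauge s_CORE

end Pool.Agent.H83.CG
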